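import Pool.Agent.Helper6.NX.GoalsC

/-!
# NX, packet C3: few quotients determine the permutation
-/

set_option linter.unusedVariables false

namespace Pool.Agent.Helper38.NX

open Equiv Pool.Agent.Helper6.NX Pool.Agent.Helper15.An

/-- the tuple of the images of the first `f` points under `g⁻¹` -/
def bt {n f : ℕ} (hf : f ≤ n) (g : Perm (Fin n)) : Fin f ↪ Fin n :=
  (Fin.castLEEmb hf).trans (g⁻¹ : Perm (Fin n)).toEmbedding

theorem bt_apply {n f : ℕ} (hf : f ≤ n) (g : Perm (Fin n)) (i : Fin f) :
    bt hf g i = g⁻¹ (Fin.castLE hf i) := rfl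

theorem exists_bt {n f : ℕ} (hf : f ≤ n) (b : Fin f ↪ Fin n) : ∃ g : Perm (Fin n), bt hf g = b := by
  haveI := Equiv.Perm.isMultiplyPretransitive (Fin n) f
  obtain ⟨g, hg⟩ := MulAction.exists_smul_eq (M := Perm (Fin n)) (Fin.castLEEmb hf) b
  refine ⟨g⁻¹, ?_⟩
  ext i
  rw [bt_apply, inv_inv, ← hg]
  rfl

open Classical in
theorem card_fiber {n f : ℕ} (hf : f ≤ n) (b : Fin f ↪ Fin n) :
    (Finset.univ.filter (fun g : Perm (Fin n) => bt hf g = b)).card = (n - f).factorial := by
  have h1 : ∀ b : Fin f ↪ Fin n, (Finset.univ.filter (fun g : Perm (Fin n) => bt hf g = b)).card =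
      (Finset.univ.filter (fun g : Perm (Fin n) => bt hf g = bt hf 1)).card := by
    intro b
    obtain ⟨s, hs⟩ := exists_bt hf b
    have hs' : ∀ i, s⁻¹ (Fin.castLE hf i) = b i := by
      intro i
      rw [← hs, bt_apply]
    apply Finset.card_bij' (fun g _ => g * s⁻¹) (fun g _ => g * s)
    · intro g hg
      rw [Finset.mem_filter] at hg ⊢
      refine ⟨Finset.mem_univ _, ?_⟩
      ext i
      have h2 : g⁻¹ (Fin.castLE hf i) = b i := by rw [← hg.2, bt_apply]
      rw [bt_apply, bt_apply, mul_inv_rev, inv_inv, Perm.mul_apply, h2, ← hs' i, inv_one,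
        Perm.one_apply]
      simp
    · intro g hg
      rw [Finset.mem_filter] at hg ⊢
      refine ⟨Finset.mem_univ _, ?_⟩
      ext i
      have h2 : g⁻¹ (Fin.castLE hf i) = Fin.castLE hf i := by
        have := congrArg (fun e : Fin f ↪ Fin n => e i) hg.2
        simp only [bt_apply, inv_one, Perm.one_apply] at this
        exact this
      rw [bt_apply, mul_inv_rev, Perm.mul_apply, h2, hs']
    · intro g _
      simp
    · intro g _
      simp
  have h2 : ∑ b : Fin f ↪ Fin n, (Finset.univ.filter
      (fun g : Perm (Fin n) => bt hf g = b)).card = n.factorial := by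
    have := Finset.card_eq_sum_card_fiberwise (f := bt hf) (s := (Finset.univ : Finset (Perm (Fin n))))
      (t := (Finset.univ : Finset (Fin f ↪ Fin n))) (fun _ _ => Finset.mem_univ _)
    rw [← this, Finset.card_univ, Fintype.card_perm, Fintype.card_fin]
  simp_rw [h1] at h2
  rw [Finset.sum_const, Finset.card_univ, Fintype.card_embedding_eq, Fintype.card_fin,
    Fintype.card_fin, smul_eq_mul, ← Nat.factorial_mul_descFactorial hf, mul_comm] at h2
  rw [h1]
  have h3 : 0 < n.descFactorial f := by
    rw [Nat.pos_iff_ne_zero]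
    intro h
    rw [Nat.descFactorial_eq_zero_iff_lt] at h
    omega
  exact Nat.eq_of_mul_eq_mul_right h3 h2

theorem sum_bt {n f : ℕ} (hf : f ≤ n) (φ : (Fin f ↪ Fin n) → ℝ) :
    ∑ g : Perm (Fin n), φ (bt hf g) / ((n - f).factorial : ℝ) = ∑ b, φ b := by
  classical
  rw [← Finset.sum_fiberwise (Finset.univ : Finset (Perm (Fin n))) (bt hf)
    (fun g => φ (bt hf g) / ((n - f).factorial : ℝ))]
  apply Finset.sum_congr rfl
  intro b _
  have h1 : ∀ g ∈ Finset.univ.filter (fun g : Perm (Fin n) => bt hf g = b),
      φ (bt hf g) / ((n - f).factorial : ℝ) = φ b / ((n - f).factorial : ℝ) := by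
    intro g hg
    rw [(Finset.mem_filter.mp hg).2]
  rw [Finset.sum_congr rfl h1, Finset.sum_const, card_fiber, nsmul_eq_mul]
  have : ((n - f).factorial : ℝ) ≠ 0 := by
    exact_mod_cast (Nat.factorial_pos _).ne'
  field_simp

theorem xlaw_eq {n f : ℕ} (hf : f ≤ n) (q : (Fin f ↪ Fin n) → ℝ) (g : Perm (Fin n)) :
    xlaw hf q g = q (bt hf g) / ((n - f).factorial : ℝ) := rfl

theorem sum_xlaw {n f : ℕ} (hf : f ≤ n) (q φ : (Fin f ↪ Fin n) → ℝ) :
    ∑ g : Perm (Fin n), xlaw hf q g * φ (bt hf g) = ∑ b, q b * φ b := by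
  rw [← sum_bt hf (fun b => q b * φ b)]
  apply Finset.sum_congr rfl
  intro g _
  rw [xlaw_eq]
  ring

theorem sum_pi {G : Type} [Fintype G] {r : ℕ} (F : Fin r → G → ℝ) :
    ∑ c : Fin r → G, ∏ j, F j (c j) = ∏ j, ∑ g, F j g := by
  classical
  rw [Finset.prod_univ_sum]
  rw [Fintype.piFinset_univ]

theorem sum_marg {G : Type} [Fintype G] {r : ℕ} (lam φ : G → ℝ) (h1 : ∑ g, lam g = 1)
    (j₀ : Fin r) :
    ∑ c : Fin r → G, (∏ j, lam (c j)) * φ (c j₀) = ∑ g, lam g * φ g := by
  classical
  have h2 : ∀ c : Fin r → G, (∏ j, lam (c j)) * φ (c j₀) =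
      ∏ j, (lam (c j) * if j = j₀ then φ (c j) else 1) := by
    intro c
    rw [Finset.prod_mul_distrib, Finset.prod_ite_eq' Finset.univ j₀ (fun j => φ (c j)),
      if_pos (Finset.mem_univ _)]
  simp_rw [h2]
  rw [sum_pi (fun j g => lam g * if j = j₀ then φ g else 1), Finset.prod_eq_single j₀]
  · simp
  · intro j _ hj
    simp [hj, h1]
  · intro h
    exact absurd (Finset.mem_univ _) h

theorem H_eq {Ω : Type} [Fintype Ω] (q : Ω → ℝ) : H q = -∑ b, q b * Real.log (q b) := by
  classical
  unfold H ent law
  congr 1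
  apply Finset.sum_congr rfl
  intro b _
  congr 2
  rw [Finset.sum_ite_eq' Finset.univ b q, if_pos (Finset.mem_univ _)]

open Classical in
theorem card_ext {n f m : ℕ} (b : Fin (m + 1) → (Fin f ↪ Fin n)) (t : Fin (m + 1) → Fin f → Fin n) :
    (Finset.univ.filter (fun s : Perm (Fin n) => ∀ j i, s (b j i) = t j i)).card ≤
      n ^ (Finset.univ.filter (fun v : Fin n => ¬ ∃ j i, b j i = v)).card := by
  set U := Finset.univ.filter (fun v : Fin n => ¬ ∃ j i, b j i = v) with hU
  have h1 : n ^ U.card = (Finset.univ : Finset ({v // v ∈ U} → Fin n)).card := by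
    rw [Finset.card_univ, Fintype.card_fun, Fintype.card_fin, Fintype.card_coe]
  rw [h1]
  apply Finset.card_le_card_of_injOn (fun s => fun v : {v // v ∈ U} => s v.1)
  · intro s _
    exact Finset.mem_coe.mpr (Finset.mem_univ _)
  · intro s hs s' hs' h
    rw [Finset.mem_coe, Finset.mem_filter] at hs hs'
    ext v
    by_cases hv : v ∈ U
    · have := congrFun h ⟨v, hv⟩
      simp only at this
      rw [this]
    · rw [hU, Finset.mem_filter] at hv
      have hv' : ∃ j i, b j i = v := by
        by_contra hc
        exact hv ⟨Finset.mem_univ _, hc⟩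
      obtain ⟨j, i, hji⟩ := hv'
      rw [← hji, hs.2 j i, hs'.2 j i]

theorem thmC3 (hl2 : S_L2) (hl3 : S_L3) (hl3c : S_L3C) (hl4 : S_L4) : S_C3 := by
  classical
  intro n k f m hf x q ε' hn hq hNIT hcov
  obtain ⟨hq0, hq1⟩ := hq
  have hfac : (0 : ℝ) < ((n - f).factorial : ℝ) := by exact_mod_cast Nat.factorial_pos _
  have hlam0 : ∀ g, 0 ≤ xlaw hf q g := fun g => by
    rw [xlaw_eq]
    exact div_nonneg (hq0 _) hfac.le
  have hlam1 : ∑ g, xlaw hf q g = 1 := by
    have := sum_xlaw hf q (fun _ => 1)
    simp only [mul_one] at this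
    rw [this, hq1]
  have hlam : IsLaw (xlaw hf q) := ⟨hlam0, hlam1⟩
  refine ⟨hlam, ?_, ?_⟩
  · -- near invariance
    intro i
    have h1 : ∀ g : Perm (Fin n), |xlaw hf q (g * (cX x i)⁻¹) - xlaw hf q g| =
        |q ((bt hf g).trans (cX x i).toEmbedding) - q (bt hf g)| / ((n - f).factorial : ℝ) := by
      intro g
      have h2 : bt hf (g * (cX x i)⁻¹) = (bt hf g).trans (cX x i).toEmbedding := by
        ext j
        rw [bt_apply, mul_inv_rev, inv_inv]
        rfl
      rw [xlaw_eq, xlaw_eq, h2, ← sub_div, abs_div, abs_of_pos hfac]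
    rw [Finset.sum_congr rfl (fun g _ => h1 g),
      sum_bt hf (fun b => |q (b.trans (cX x i).toEmbedding) - q b|)]
    refine le_trans (le_of_eq ?_) (hNIT i)
    let e : (Fin f ↪ Fin n) ≃ (Fin f ↪ Fin n) :=
      { toFun := fun b => b.trans (cX x i).toEmbedding
        invFun := fun b => b.trans ((cX x i)⁻¹ : Perm (Fin n)).toEmbedding
        left_inv := fun b => by
          ext j
          simp
        right_inv := fun b => by
          ext j
          simp }
    rw [← Equiv.sum_comp e (fun b : Fin f ↪ Fin n =>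
      |q (b.trans (((x i : Perm (Fin n))⁻¹ : Perm (Fin n)).toEmbedding)) - q b|)]
    apply Finset.sum_congr rfl
    intro b _
    have h3 : (e b).trans (((x i : Perm (Fin n))⁻¹ : Perm (Fin n)).toEmbedding) = b := by
      have := e.symm_apply_apply b
      exact this
    rw [h3, abs_sub_comm]
    rfl
  · -- entropy
    set lam := xlaw hf q with hlamdef
    set P : (Fin (m + 1) → Perm (Fin n)) → ℝ := fun c => ∏ j, lam (c j) with hPdef
    have hP : IsLaw P := by
      refine ⟨fun c => Finset.prod_nonneg (fun j _ => hlam0 _), ?_⟩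
      rw [hPdef, sum_pi (fun _ => lam)]
      simp [hlam1]
    set X : (Fin (m + 1) → Perm (Fin n)) → Perm (Fin n) := fun c => c 0 with hX
    set Y : (Fin (m + 1) → Perm (Fin n)) → (Fin m → Perm (Fin n)) :=
      fun c => fun j : Fin m => c 0 * (c j.succ)⁻¹ with hY
    set B : (Fin (m + 1) → Perm (Fin n)) → (Fin (m + 1) → (Fin f ↪ Fin n)) :=
      fun c => fun j => bt hf (c j) with hB
    have hposq : ∀ c, 0 < P c → ∀ j, 0 < q (bt hf (c j)) := by
      intro c hc j
      have h1 : lam (c j) ≠ 0 := by
        intro h0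
        have : P c = 0 := Finset.prod_eq_zero (Finset.mem_univ j) h0
        rw [this] at hc
        exact lt_irrefl _ hc
      rcases (hq0 (bt hf (c j))).lt_or_eq with h2 | h2
      · exact h2
      · exfalso
        apply h1
        rw [hlamdef, xlaw_eq, ← h2, zero_div]
    -- step 1
    have hstep1 : cent P X Y ≤ cent P X (fun c => (Y c, B c)) + ent P B := by
      have h1 : ent P (fun c => (X c, Y c)) ≤ ent P (fun c => (X c, (Y c, B c))) := by
        apply hl2 _ _ _ P _ _ hP
        intro c c' _ _ h
        simp only [Prod.mk.injEq] at h ⊢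
        exact ⟨h.1, h.2.1⟩
      have h2 : ent P (fun c => (Y c, B c)) ≤ ent P Y + ent P B := by
        have h3 := (hl4 _ _ _ _ P Y B (fun _ => ()) hP).2
        have h4 := (hl3c _ (Perm (Fin n)) (Perm (Fin n)) P (fun c => c 0) (fun c => c 0) hP).2.2.1
        have h5 : ent P (fun c => (Y c, ())) ≤ ent P Y := by
          apply hl2 _ _ _ P _ _ hP
          intro c c' _ _ h
          simp only [h]
        have h6 : ent P (fun c => (B c, ())) ≤ ent P B := by
          apply hl2 _ _ _ P _ _ hP
          intro c c' _ _ h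
          simp only [h]
        have h7 : ent P (fun c => (Y c, B c)) ≤ ent P (fun c => (Y c, B c, ())) := by
          apply hl2 _ _ _ P _ _ hP
          intro c c' _ _ h
          simp only [Prod.mk.injEq] at h ⊢
          exact ⟨h.1, h.2.1⟩
        linarith
      unfold cent
      linarith
    -- step 2
    have hstep2 : ent P B ≤ (m + 1) * H q := by
      have h1 := hl3 _ _ _ P B (fun _ => ()) (fun _ a => ∏ j, q (a j)) hP
        (fun _ a => Finset.prod_nonneg (fun j _ => hq0 _))
        (fun _ s => by
          have h2 : ∑ a : Fin (m + 1) → (Fin f ↪ Fin n), ∏ j, q (a j) = 1 := by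
            rw [sum_pi (fun _ => q)]
            simp [hq1]
          rw [← h2]
          exact Finset.sum_le_sum_of_subset_of_nonneg (Finset.subset_univ _)
            (fun a _ _ => Finset.prod_nonneg (fun j _ => hq0 _)))
        (fun c hc => Finset.prod_pos (fun j _ => hposq c hc j))
      have h3 : ent P B ≤ cent P B (fun _ => ()) := by
        have h4 := (hl3c _ (Perm (Fin n)) (Perm (Fin n)) P (fun c => c 0) (fun c => c 0) hP).2.2.1
        have h5 : ent P B ≤ ent P (fun c => (B c, ())) := by
          apply hl2 _ _ _ P _ _ hP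
          intro c c' _ _ h
          exact (Prod.mk.inj h).1
        unfold cent
        rw [h4]
        linarith
      refine (h3.trans h1).trans (le_of_eq ?_)
      have h6 : ∀ c, P c * Real.log (∏ j, q (B c j)) = ∑ j, P c * Real.log (q (bt hf (c j))) := by
        intro c
        rcases (hP.1 c).lt_or_eq with h7 | h7
        · rw [Real.log_prod (fun j _ => (hposq c h7 j).ne'), Finset.mul_sum]
        · rw [← h7]
          simp
      rw [Finset.sum_congr rfl (fun c _ => h6 c), Finset.sum_comm]
      have h8 : ∀ j : Fin (m + 1), ∑ c, P c * Real.log (q (bt hf (c j))) =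
          ∑ b, q b * Real.log (q b) := by
        intro j
        rw [hPdef, sum_marg lam (fun g => Real.log (q (bt hf g))) hlam1 j,
          sum_xlaw hf q (fun b => Real.log (q b))]
      rw [Finset.sum_congr rfl (fun j _ => h8 j), Finset.sum_const, Finset.card_univ,
        Fintype.card_fin, nsmul_eq_mul, H_eq]
      push_cast
      ring
    -- step 3
    have hlogn : 0 ≤ Real.log n := Real.log_natCast_nonneg n
    have hn0 : (0 : ℝ) < n := by exact_mod_cast hn
    have hstep3 : cent P X (fun c => (Y c, B c)) ≤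
        n * Real.exp (-((m + 1) * f / (4 * n))) * Real.log n := by
      let Gm : (Fin m → Perm (Fin n)) → Fin (m + 1) → Perm (Fin n) := fun y => Fin.cons 1 y
      let s : (Fin m → Perm (Fin n)) × (Fin (m + 1) → (Fin f ↪ Fin n)) → Finset (Perm (Fin n)) :=
        fun yb => Finset.univ.filter (fun σ : Perm (Fin n) =>
          ∀ j i, σ (yb.2 j i) = Gm yb.1 j (Fin.castLE hf i))
      have h1 := (hl3c _ _ _ P X (fun c => (Y c, B c)) hP).1 s
        (fun c _ => by
          rw [Finset.mem_filter]
          refine ⟨Finset.mem_univ _, ?_⟩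
          intro j i
          refine Fin.cases ?_ (fun j' => ?_) j
          · show c 0 ((c 0)⁻¹ (Fin.castLE hf i)) = (1 : Perm (Fin n)) (Fin.castLE hf i)
            simp
          · show c 0 ((c j'.succ)⁻¹ (Fin.castLE hf i)) =
              (c 0 * (c j'.succ)⁻¹) (Fin.castLE hf i)
            rw [Perm.mul_apply])
      refine h1.trans ?_
      -- number of uncovered points
      let ψ : Fin n → Perm (Fin n) → ℝ := fun v g => if ∃ i, bt hf g i = v then 0 else 1
      have h2 : ∀ c, Real.log ((s (Y c, B c)).card : ℝ) ≤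
          (∑ v, ∏ j, ψ v (c j)) * Real.log n := by
        intro c
        have h3 : (s (Y c, B c)).card ≤
            n ^ (Finset.univ.filter (fun v : Fin n => ¬ ∃ j i, B c j i = v)).card :=
          card_ext (B c) (fun j i => Gm (Y c) j (Fin.castLE hf i))
        have h4 : ((Finset.univ.filter (fun v : Fin n => ¬ ∃ j i, B c j i = v)).card : ℝ) =
            ∑ v, ∏ j, ψ v (c j) := by
          rw [Finset.card_filter, Nat.cast_sum]
          apply Finset.sum_congr rfl
          intro v _
          by_cases hv : ∃ j i, B c j i = v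
          · rw [if_neg (not_not.mpr hv)]
            obtain ⟨j, i, hji⟩ := hv
            rw [Finset.prod_eq_zero (Finset.mem_univ j)]
            · simp
            · exact if_pos ⟨i, hji⟩
          · rw [if_pos hv, Finset.prod_eq_one]
            · simp
            · intro j _
              apply if_neg
              rintro ⟨i, hi⟩
              exact hv ⟨j, i, hi⟩
        rw [← h4]
        rcases Nat.eq_zero_or_pos (s (Y c, B c)).card with h5 | h5
        · rw [h5, Nat.cast_zero, Real.log_zero]
          positivity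
        · have h6 : (0 : ℝ) < (s (Y c, B c)).card := by exact_mod_cast h5
          have h7 : ((s (Y c, B c)).card : ℝ) ≤
              (n : ℝ) ^ (Finset.univ.filter (fun v : Fin n => ¬ ∃ j i, B c j i = v)).card := by
            exact_mod_cast h3
          calc Real.log ((s (Y c, B c)).card : ℝ)
              ≤ Real.log ((n : ℝ) ^
                (Finset.univ.filter (fun v : Fin n => ¬ ∃ j i, B c j i = v)).card) :=
                Real.log_le_log h6 h7
            _ = _ := Real.log_pow _ _
      have h8 : ∑ c, P c * Real.log ((s (Y c, B c)).card : ℝ) ≤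
          ∑ c, P c * ((∑ v, ∏ j, ψ v (c j)) * Real.log n) :=
        Finset.sum_le_sum (fun c _ => mul_le_mul_of_nonneg_left (h2 c) (hP.1 c))
      refine h8.trans ?_
      have h9 : ∑ c, P c * ((∑ v, ∏ j, ψ v (c j)) * Real.log n) =
          (∑ v, (∑ g, lam g * ψ v g) ^ (m + 1)) * Real.log n := by
        have e1 : ∀ c, P c * ((∑ v, ∏ j, ψ v (c j)) * Real.log n) =
            (∑ v, ∏ j, (lam (c j) * ψ v (c j))) * Real.log n := by
          intro c
          rw [← mul_assoc, Finset.mul_sum]
          congr 1
          apply Finset.sum_congr rfl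
          intro v _
          rw [Finset.prod_mul_distrib]
        rw [Finset.sum_congr rfl (fun c _ => e1 c), ← Finset.sum_mul, Finset.sum_comm]
        congr 1
        apply Finset.sum_congr rfl
        intro v _
        rw [sum_pi (fun _ g => lam g * ψ v g)]
        simp
      rw [h9]
      apply mul_le_mul_of_nonneg_right _ hlogn
      have h10 : ∀ v : Fin n, (∑ g, lam g * ψ v g) ^ (m + 1) ≤
          Real.exp (-((m + 1) * f / (4 * n))) := by
        intro v
        have e1 : ∑ g, lam g * ψ v g =
            ∑ b : Fin f ↪ Fin n, q b * (if ∃ i, b i = v then 0 else 1) :=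
          sum_xlaw hf q (fun b => if ∃ i, b i = v then 0 else 1)
        have e2 : ∑ b : Fin f ↪ Fin n, q b * (if ∃ i, b i = v then (0 : ℝ) else 1) =
            1 - ∑ b : Fin f ↪ Fin n, (if ∃ i, b i = v then q b else 0) := by
          have e5 : ∀ b ∈ (Finset.univ : Finset (Fin f ↪ Fin n)),
              q b * (if ∃ i, b i = v then (0 : ℝ) else 1) =
                q b - (if ∃ i, b i = v then q b else 0) := by
            intro b _
            by_cases hb : ∃ i, b i = v
            · rw [if_pos hb, if_pos hb]
              ring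
            · rw [if_neg hb, if_neg hb]
              ring
          rw [Finset.sum_congr rfl e5, Finset.sum_sub_distrib, hq1]
        have e3 : 0 ≤ ∑ g, lam g * ψ v g := by
          apply Finset.sum_nonneg
          intro g _
          apply mul_nonneg (hlam0 g)
          show (0 : ℝ) ≤ if ∃ i, bt hf g i = v then 0 else 1
          split_ifs <;> norm_num
        have e4 : ∑ g, lam g * ψ v g ≤ Real.exp (-((f : ℝ) / (4 * n))) := by
          rw [e1, e2]
          have h11 := hcov v
          have h12 := Real.add_one_le_exp (-((f : ℝ) / (4 * n)))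
          linarith
        calc (∑ g, lam g * ψ v g) ^ (m + 1) ≤ Real.exp (-((f : ℝ) / (4 * n))) ^ (m + 1) :=
              pow_le_pow_left₀ e3 e4 _
          _ = Real.exp (-((m + 1) * f / (4 * n))) := by
              rw [← Real.exp_nat_mul]
              congr 1
              push_cast
              ring
      calc ∑ v, (∑ g, lam g * ψ v g) ^ (m + 1)
          ≤ ∑ _v : Fin n, Real.exp (-((m + 1) * f / (4 * n))) :=
            Finset.sum_le_sum (fun v _ => h10 v)
        _ = n * Real.exp (-((m + 1) * f / (4 * n))) := by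
            rw [Finset.sum_const, Finset.card_univ, Fintype.card_fin, nsmul_eq_mul]
    calc cent P X Y ≤ cent P X (fun c => (Y c, B c)) + ent P B := hstep1
      _ ≤ n * Real.exp (-((m + 1) * f / (4 * n))) * Real.log n + (m + 1) * H q :=
          add_le_add hstep3 hstep2
      _ = _ := by ring

end Pool.Agent.Helper38.NX
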